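import Mathlib

/-!
# Almost isometries between `L^∞` spaces need not be close to isometries

Over a large set `Q` we use the points `Q ⊕ Q × Q` with the countable-cocountable `σ`-algebra and
counting measure. The second space consists of the measures `(1 - ε) δ_{(a,t)} + ε δ_a` and the
uniform measures on finite subsets of `Q`; its `σ`-algebra consists of the sets which depend on
countably many atoms. Integration is `2ε`-isometric. A nearby isometry `V` has to send the indicator
function of `a` to a function which vanishes at `(1 - ε) δ_{(a,t)} + ε δ_a` for all `t`, hence at every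
uniform measure on a free set of `1/ε` points.
-/

open MeasureTheory Filter Topology Set Cardinal
open scoped ENNReal

namespace Pool.Agent.Results.MP_80693f_an.BothFail

/-- `T` is `ε`-isometric. -/
def EpsIsometric {E F : Type} [NormedAddCommGroup E] [NormedSpace ℝ E] [NormedAddCommGroup F]
    [NormedSpace ℝ F] (ε : ℝ) (T : E →L[ℝ] F) : Prop :=
  ∀ x, (1 - ε) * ‖x‖ ≤ ‖T x‖ ∧ ‖T x‖ ≤ (1 + ε) * ‖x‖

/-- Property (A) for `B(E, F)`. -/
def PropA (E F : Type) [NormedAddCommGroup E] [NormedSpace ℝ E] [NormedAddCommGroup F]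
    [NormedSpace ℝ F] : Prop :=
  ∃ δ : ℝ → ℝ, (∀ ε, 0 < ε → ε < 1 → 0 ≤ δ ε) ∧ Tendsto δ (𝓝[>] 0) (𝓝 0) ∧
    ∀ ε, 0 < ε → ε < 1 → ∀ T : E →L[ℝ] F, EpsIsometric ε T →
      ∃ V : E →L[ℝ] F, EpsIsometric 0 V ∧ ‖T - V‖ ≤ δ ε

/-- `T` is positive. -/
def Pos {E F : Type} [NormedAddCommGroup E] [NormedSpace ℝ E] [NormedAddCommGroup F]
    [NormedSpace ℝ F] [PartialOrder E] [PartialOrder F] (T : E →L[ℝ] F) : Prop :=
  ∀ x, 0 ≤ x → 0 ≤ T x

/-- Property (B₂) for `B(E, F)`. -/
def PropB (E F : Type) [NormedAddCommGroup E] [NormedSpace ℝ E] [NormedAddCommGroup F]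
    [NormedSpace ℝ F] [PartialOrder E] [PartialOrder F] : Prop :=
  ∃ δ : ℝ → ℝ, (∀ ε, 0 < ε → ε < 1 → 0 ≤ δ ε) ∧ Tendsto δ (𝓝[>] 0) (𝓝 0) ∧
    ∀ ε, 0 < ε → ε < 1 → ∀ T : E →L[ℝ] F, Pos T → EpsIsometric ε T →
      ∃ V : E →L[ℝ] F, Pos V ∧ EpsIsometric 0 V ∧ ‖T - V‖ ≤ δ ε

/-! ### Free sets -/

section Free

variable {Q : Type} (S : Q → Set Q)

lemma step_card (hS : ∀ q, (S q).Countable) (A : Set Q) (hA : #A ≤ 𝔠) :
    #(A ∪ ⋃ x ∈ A, S x : Set Q) ≤ 𝔠 := by
  refine (mk_union_le _ _).trans ?_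
  have h1 : #(⋃ x ∈ A, S x : Set Q) ≤ 𝔠 := by
    refine (mk_biUnion_le _ _).trans ?_
    have h2 : (⨆ x : A, #(S x)) ≤ ℵ₀ := ciSup_le' fun x => by
      have := hS x
      rwa [← Cardinal.le_aleph0_iff_set_countable] at this
    calc #A * (⨆ x : A, #(S x)) ≤ 𝔠 * ℵ₀ := mul_le_mul' hA h2
      _ = 𝔠 := continuum_mul_aleph0
  calc #A + _ ≤ 𝔠 + 𝔠 := add_le_add hA h1
    _ = 𝔠 := continuum_add_self

lemma exists_closure (hS : ∀ q, (S q).Countable) (A : Set Q) (hA : #A ≤ 𝔠) :
    ∃ W : Set Q, A ⊆ W ∧ #W ≤ 𝔠 ∧ ∀ x ∈ W, S x ⊆ W := by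
  let f : ℕ → Set Q := fun n => Nat.rec A (fun _ B => B ∪ ⋃ x ∈ B, S x) n
  have hf : ∀ n, #(↥(f n)) ≤ 𝔠 := by
    intro n
    induction n with
    | zero => exact hA
    | succ n ih => exact step_card S hS _ ih
  refine ⟨⋃ n, f n, subset_iUnion f 0, ?_, ?_⟩
  · refine (mk_iUnion_le _).trans ?_
    calc #ℕ * (⨆ i, #(↥(f i))) ≤ ℵ₀ * 𝔠 := mul_le_mul' (by simp) (ciSup_le' hf)
      _ = 𝔠 := aleph0_mul_continuum
  · intro x hx y hy
    obtain ⟨n, hn⟩ := mem_iUnion.1 hx
    refine mem_iUnion.2 ⟨n + 1, Or.inr ?_⟩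
    exact mem_biUnion hn hy

/-- a chain of closed sets -/
lemma exists_chain (hS : ∀ q, (S q).Countable) (hQ : 𝔠 < #Q) :
    ∃ W : ℕ → Set Q, (∀ i, #(W i : Set Q) ≤ 𝔠) ∧ (∀ i, ∀ x ∈ W i, S x ⊆ W i) ∧
      (∀ i, W i ⊆ W (i + 1)) ∧ ∀ i, ¬ (W (i + 1) \ W i).Countable := by
  have hstep : ∀ W : {W : Set Q // #(↥W) ≤ 𝔠 ∧ ∀ x ∈ W, S x ⊆ W},
      ∃ W' : {W : Set Q // #(↥W) ≤ 𝔠 ∧ ∀ x ∈ W, S x ⊆ W}, W.1 ⊆ W'.1 ∧
        ¬ (W'.1 \ W.1).Countable := by
    rintro ⟨W, hW, hWS⟩
    have h1 : 𝔠 ≤ #(Wᶜ : Set Q) := by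
      by_contra hcon
      push Not at hcon
      have h2 : #W + #(Wᶜ : Set Q) = #Q := mk_sum_compl W
      have h3 : #W + #(Wᶜ : Set Q) ≤ 𝔠 := by
        calc _ ≤ 𝔠 + 𝔠 := add_le_add hW hcon.le
          _ = 𝔠 := continuum_add_self
      rw [h2] at h3
      exact absurd h3 (not_le.2 hQ)
    obtain ⟨A, hA, hAc⟩ : ∃ A : Set Q, A ⊆ Wᶜ ∧ #A = 𝔠 := le_mk_iff_exists_subset.1 h1
    obtain ⟨W', h2, h3, h4⟩ := exists_closure S hS (W ∪ A) (by
      calc #(W ∪ A : Set Q) ≤ #W + #A := mk_union_le _ _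
        _ ≤ 𝔠 + 𝔠 := add_le_add hW hAc.le
        _ = 𝔠 := continuum_add_self)
    refine ⟨⟨W', h3, h4⟩, subset_union_left.trans h2, fun hc => ?_⟩
    change (W' \ W).Countable at hc
    have h6 : A ⊆ W' \ W := by
      intro x hx
      exact ⟨h2 (Or.inr hx), hA hx⟩
    have h5 : A.Countable := hc.mono h6
    rw [← Cardinal.le_aleph0_iff_set_countable, hAc] at h5
    exact absurd h5 (not_le.2 aleph0_lt_continuum)
  choose g hg1 hg2 using hstep
  let W0 : {W : Set Q // #(↥W) ≤ 𝔠 ∧ ∀ x ∈ W, S x ⊆ W} := ⟨∅, by simp, by simp⟩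
  let W : ℕ → {W : Set Q // #(↥W) ≤ 𝔠 ∧ ∀ x ∈ W, S x ⊆ W} := fun n => Nat.rec W0 (fun _ B => g B) n
  exact ⟨fun i => (W i).1, fun i => (W i).2.1, fun i => (W i).2.2, fun i => hg1 (W i),
    fun i => hg2 (W i)⟩

lemma exists_free (hS : ∀ q, (S q).Countable) (hQ : 𝔠 < #Q) (n : ℕ) :
    ∃ F : Finset Q, F.card = n ∧ ∀ a ∈ F, ∀ b ∈ F, a ≠ b → a ∉ S b := by
  classical
  obtain ⟨W, -, hcl, hmono, hunc⟩ := exists_chain S hS hQ
  have hmono' : Monotone W := monotone_nat_of_le_succ hmono
  -- descending construction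
  have key : ∀ k ≤ n, ∃ F : Finset Q, F.card = k ∧ (∀ a ∈ F, a ∉ W (n - k)) ∧
      ∀ a ∈ F, ∀ b ∈ F, a ≠ b → a ∉ S b := by
    intro k
    induction k with
    | zero => intro _; exact ⟨∅, by simp, by simp, by simp⟩
    | succ k ih =>
      intro hk
      obtain ⟨F, hc, hF, hfree⟩ := ih (by omega)
      have e1 : n - k = n - (k + 1) + 1 := by omega
      have h1 : ¬ (W (n - (k + 1) + 1) \ W (n - (k + 1))).Countable := hunc _
      have h2 : (⋃ a ∈ F, S a).Countable := F.countable_toSet.biUnion fun a _ => hS a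
      have h3 : ((W (n - (k + 1) + 1) \ W (n - (k + 1))) \ ⋃ a ∈ F, S a).Nonempty := by
        by_contra hcon
        rw [not_nonempty_iff_eq_empty, sdiff_eq_empty] at hcon
        exact h1 (h2.mono hcon)
      obtain ⟨y, ⟨hy1, hy2⟩, hy3⟩ := h3
      rw [e1] at hF
      have hyF : y ∉ F := fun h => hF y h hy1
      refine ⟨insert y F, ?_, ?_, ?_⟩
      · rw [Finset.card_insert_of_notMem hyF, hc]
      · intro a ha
        rcases Finset.mem_insert.1 ha with rfl | ha
        · exact hy2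
        · exact fun h => hF a ha (hmono _ h)
      · intro a ha b hb hab
        by_cases hay : a = y
        · by_cases hby : b = y
          · exact absurd (hay.trans hby.symm) hab
          · have hb' : b ∈ F := (Finset.mem_insert.1 hb).resolve_left hby
            rw [hay]
            exact fun h => hy3 (mem_biUnion hb' h)
        · have ha' : a ∈ F := (Finset.mem_insert.1 ha).resolve_left hay
          by_cases hby : b = y
          · rw [hby]
            exact fun h => hF a ha' (hcl _ _ hy1 h)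
          · exact hfree a ha' b ((Finset.mem_insert.1 hb).resolve_left hby) hab
  obtain ⟨F, h1, -, h2⟩ := key n le_rfl
  exact ⟨F, h1, h2⟩

end Free

/-! ### The two measurable spaces -/

/-- the index set -/
abbrev Q : Type := Set (Set ℕ)

lemma Q_card : 𝔠 < #Q := by
  have h1 : #(Set ℕ) = 𝔠 := by simp
  rw [← h1, mk_set (α := Set ℕ)]
  exact cantor _

/-- the first space -/
abbrev X : Type := Q ⊕ (Q × Q)

/-- the countable-cocountable `σ`-algebra -/
@[reducible] def ccSpace (X : Type) : MeasurableSpace X where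
  MeasurableSet' s := s.Countable ∨ sᶜ.Countable
  measurableSet_empty := Or.inl countable_empty
  measurableSet_compl s h := by
    rcases h with h | h
    · exact Or.inr (by rwa [compl_compl])
    · exact Or.inl h
  measurableSet_iUnion f h := by
    by_cases hc : ∀ i, (f i).Countable
    · exact Or.inl (countable_iUnion hc)
    · push Not at hc
      obtain ⟨i, hi⟩ := hc
      exact Or.inr (((h i).resolve_left hi).mono (compl_subset_compl.2 (subset_iUnion f i)))

/-- the second space -/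
abbrev Y : Type := ℕ × ((Q × Q) ⊕ {F : Finset Q // F.Nonempty})

/-- the weights -/
noncomputable def w : Y → X →₀ ℝ
  | (N, Sum.inl (a, t)) => Finsupp.single (Sum.inr (a, t)) (1 - 1 / ((N : ℝ) + 2)) +
      Finsupp.single (Sum.inl a) (1 / ((N : ℝ) + 2))
  | (_, Sum.inr F) => ∑ a ∈ F.1, Finsupp.single (Sum.inl a) (1 / (F.1.card : ℝ))

/-- the `σ`-algebra of the sets which depend on countably many atoms -/
@[reducible] def depSpace : MeasurableSpace Y where
  MeasurableSet' s := ∃ C : Set X, C.Countable ∧ ∀ p p' : Y, p.1 = p'.1 →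
    (∀ x ∈ C, w p x = w p' x) → (p ∈ s ↔ p' ∈ s)
  measurableSet_empty := ⟨∅, countable_empty, by simp⟩
  measurableSet_compl s h := by
    obtain ⟨C, h1, h2⟩ := h
    exact ⟨C, h1, fun p p' h3 h4 => not_congr (h2 p p' h3 h4)⟩
  measurableSet_iUnion f h := by
    choose C h1 h2 using h
    refine ⟨⋃ i, C i, countable_iUnion h1, fun p p' h3 h4 => ?_⟩
    simp only [mem_iUnion]
    exact exists_congr fun i => h2 i p p' h3 fun x hx => h4 x (mem_iUnion.2 ⟨i, hx⟩)

instance instX : MeasurableSpace X := ccSpace X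

instance instY : MeasurableSpace Y := depSpace

/-- the functional given by a point of `Y` -/
noncomputable def ev (p : Y) (f : X → ℝ) : ℝ := (w p).sum fun x r => r * f x

lemma ev_inl (N : ℕ) (a t : Q) (f : X → ℝ) : ev (N, Sum.inl (a, t)) f =
    (1 - 1 / ((N : ℝ) + 2)) * f (Sum.inr (a, t)) + 1 / ((N : ℝ) + 2) * f (Sum.inl a) := by
  classical
  unfold ev w
  rw [Finsupp.sum_add_index' (by simp) (by intros; ring), Finsupp.sum_single_index (by simp),
    Finsupp.sum_single_index (by simp)]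

lemma ev_inr (N : ℕ) (F : {F : Finset Q // F.Nonempty}) (f : X → ℝ) : ev (N, Sum.inr F) f =
    ∑ a ∈ F.1, 1 / (F.1.card : ℝ) * f (Sum.inl a) := by
  classical
  unfold ev w
  rw [← Finsupp.sum_finsetSum_index (by simp) (by intros; ring)]
  simp

lemma ev_add (p : Y) (f g : X → ℝ) : ev p (f + g) = ev p f + ev p g := by
  unfold ev
  rw [← Finsupp.sum_add]
  exact Finsupp.sum_congr fun x _ => by simp; ring

lemma ev_smul (p : Y) (c : ℝ) (f : X → ℝ) : ev p (c • f) = c * ev p f := by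
  unfold ev
  rw [Finsupp.mul_sum]
  exact Finsupp.sum_congr fun x _ => by simp; ring

lemma eps_pos (N : ℕ) : (0 : ℝ) < 1 / ((N : ℝ) + 2) := by positivity

lemma eps_le (N : ℕ) : 1 / ((N : ℝ) + 2) ≤ 1 / 2 := by
  apply one_div_le_one_div_of_le (by norm_num)
  have : (0 : ℝ) ≤ N := N.cast_nonneg
  linarith

lemma ev_const (p : Y) (c : ℝ) : ev p (fun _ => c) = c := by
  obtain ⟨N, ⟨a, t⟩ | F⟩ := p
  · rw [ev_inl]; ring
  · rw [ev_inr, Finset.sum_const, nsmul_eq_mul]
    have : (F.1.card : ℝ) ≠ 0 := by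
      have := F.2.card_pos
      positivity
    field_simp

lemma ev_mono (p : Y) (f g : X → ℝ) (h : ∀ x, f x ≤ g x) : ev p f ≤ ev p g := by
  obtain ⟨N, ⟨a, t⟩ | F⟩ := p
  · rw [ev_inl, ev_inl]
    have h1 := eps_pos N
    have h2 := eps_le N
    nlinarith [h (Sum.inr (a, t)), h (Sum.inl a)]
  · rw [ev_inr, ev_inr]
    exact Finset.sum_le_sum fun a _ => mul_le_mul_of_nonneg_left (h _) (by positivity)

lemma abs_ev_le (p : Y) (f : X → ℝ) (C : ℝ) (h : ∀ x, |f x| ≤ C) : |ev p f| ≤ C := by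
  rw [abs_le]
  constructor
  · have := ev_mono p (fun _ => -C) f fun x => (abs_le.1 (h x)).1
    rwa [ev_const] at this
  · have := ev_mono p f (fun _ => C) fun x => (abs_le.1 (h x)).2
    rwa [ev_const] at this

/-- locality of the functionals -/
lemma ev_local (p p' : Y) (C : Set X) (f : X → ℝ) (hf : ∀ x, x ∉ C → f x = 0)
    (h : ∀ x ∈ C, w p x = w p' x) : ev p f = ev p' f := by
  classical
  have e1 : ev p f = ∑ x ∈ (w p).support ∪ (w p').support, w p x * f x :=
    Finsupp.sum_of_support_subset _ Finset.subset_union_left _ (by simp)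
  have e2 : ev p' f = ∑ x ∈ (w p).support ∪ (w p').support, w p' x * f x :=
    Finsupp.sum_of_support_subset _ Finset.subset_union_right _ (by simp)
  rw [e1, e2]
  refine Finset.sum_congr rfl fun x _ => ?_
  by_cases hx : x ∈ C
  · rw [h x hx]
  · rw [hf x hx]; simp

/-- a measurable function on the first space is constant off a countable set -/
lemma exists_const (f : X → ℝ) (hf : Measurable f) :
    ∃ (c : ℝ) (C : Set X), C.Countable ∧ ∀ x, x ∉ C → f x = c := by
  have h1 : ∀ q : ℚ, {x | f x < q}.Countable ∨ {x | f x < q}ᶜ.Countable := fun q =>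
    (measurableSet_lt hf measurable_const : MeasurableSet {x | f x < (q : ℝ)})
  have h2 : ∀ q : ℚ, ∃ C : Set X, C.Countable ∧ ∀ x y, x ∉ C → y ∉ C → f x < q → f y < q := by
    intro q
    rcases h1 q with h | h
    · exact ⟨_, h, fun x y hx _ hq => absurd hq hx⟩
    · refine ⟨_, h, fun x y _ hy _ => ?_⟩
      by_contra hcon
      exact hy hcon
  choose C h3 h4 using h2
  have h5 : ∀ x y, x ∉ ⋃ q, C q → y ∉ ⋃ q, C q → ¬ f x < f y := by
    intro x y hx hy hlt
    obtain ⟨q, h6, h7⟩ := exists_rat_btwn hlt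
    have := h4 q x y (fun h => hx (mem_iUnion.2 ⟨q, h⟩)) (fun h => hy (mem_iUnion.2 ⟨q, h⟩)) h6
    linarith
  by_cases h6 : ∃ x0, x0 ∉ ⋃ q, C q
  · obtain ⟨x0, hx0⟩ := h6
    refine ⟨f x0, _, countable_iUnion h3, fun x hx => ?_⟩
    have h7 := h5 x x0 hx hx0
    have h8 := h5 x0 x hx0 hx
    linarith [not_lt.1 h7, not_lt.1 h8]
  · push Not at h6
    exact ⟨0, _, countable_iUnion h3, fun x hx => absurd (h6 x) hx⟩

/-- a measurable function on the second space depends on countably many atoms -/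
lemma exists_dep (f : Y → ℝ) (hf : Measurable f) :
    ∃ C : Set X, C.Countable ∧ ∀ p p' : Y, p.1 = p'.1 → (∀ x ∈ C, w p x = w p' x) →
      f p = f p' := by
  have h1 : ∀ q : ℚ, MeasurableSet {p | f p < q} := fun q => measurableSet_lt hf measurable_const
  choose C h2 h3 using h1
  refine ⟨⋃ q, C q, countable_iUnion h2, fun p p' h4 h5 => ?_⟩
  have h6 : ∀ q : ℚ, f p < q ↔ f p' < q := fun q =>
    h3 q p p' h4 fun x hx => h5 x (mem_iUnion.2 ⟨q, hx⟩)
  by_contra hne
  rcases lt_or_gt_of_ne hne with h | h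
  · obtain ⟨q, h7, h8⟩ := exists_rat_btwn h
    exact absurd ((h6 q).1 h7) (not_lt.2 h8.le)
  · obtain ⟨q, h7, h8⟩ := exists_rat_btwn h
    exact absurd ((h6 q).2 h7) (not_lt.2 h8.le)

/-! ### Counting measures -/

section Count

variable {α : Type} [MeasurableSpace α]

lemma all_of_ae {P : α → Prop} (h : ∀ᵐ x ∂(Measure.count : Measure α), P x) : ∀ x, P x :=
  Measure.ae_count_iff.1 h

lemma abs_le_norm (f : Lp ℝ ∞ (Measure.count : Measure α)) (x : α) : |f x| ≤ ‖f‖ := by
  have h1 : ∀ᵐ y ∂(Measure.count : Measure α), ‖f y‖ₑ ≤ eLpNormEssSup f Measure.count :=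
    ae_le_eLpNormEssSup
  have h2 := all_of_ae h1 x
  rw [← eLpNorm_exponent_top] at h2
  rw [Lp.norm_def, ← Real.norm_eq_abs, ← toReal_enorm]
  exact ENNReal.toReal_mono (Lp.eLpNorm_ne_top f) h2

lemma norm_le_of (f : Lp ℝ ∞ (Measure.count : Measure α)) (C : ℝ) (hC : 0 ≤ C)
    (h : ∀ x, |f x| ≤ C) : ‖f‖ ≤ C := by
  rw [Lp.norm_def, eLpNorm_exponent_top]
  have h1 := eLpNormEssSup_le_of_ae_bound (μ := (Measure.count : Measure α)) (f := f) (C := C)
    (Eventually.of_forall h)
  calc _ ≤ (ENNReal.ofReal C).toReal := ENNReal.toReal_mono ENNReal.ofReal_ne_top h1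
    _ = C := ENNReal.toReal_ofReal hC

lemma memLp_of (g : α → ℝ) (hg : Measurable g) (C : ℝ) (h : ∀ x, |g x| ≤ C) :
    MemLp g ∞ (Measure.count : Measure α) :=
  memLp_top_of_bound hg.aestronglyMeasurable C (Eventually.of_forall h)

lemma coe_mk (g : α → ℝ) (h : MemLp g ∞ (Measure.count : Measure α)) (x : α) :
    h.toLp g x = g x := all_of_ae h.coeFn_toLp x

lemma coe_add' (f g : Lp ℝ ∞ (Measure.count : Measure α)) (x : α) : (f + g) x = f x + g x :=
  all_of_ae (Lp.coeFn_add f g) x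

lemma coe_sub' (f g : Lp ℝ ∞ (Measure.count : Measure α)) (x : α) : (f - g) x = f x - g x :=
  all_of_ae (Lp.coeFn_sub f g) x

lemma coe_smul' (c : ℝ) (f : Lp ℝ ∞ (Measure.count : Measure α)) (x : α) :
    (c • f) x = c * f x := all_of_ae (Lp.coeFn_smul c f) x

lemma coe_sum' {ι : Type} (s : Finset ι) (f : ι → Lp ℝ ∞ (Measure.count : Measure α)) (x : α) :
    (∑ i ∈ s, f i) x = ∑ i ∈ s, f i x := by
  classical
  induction s using Finset.induction_on with
  | empty => simpa using all_of_ae (Lp.coeFn_zero ℝ ∞ (Measure.count : Measure α)) x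
  | insert a s ha ih => rw [Finset.sum_insert ha, Finset.sum_insert ha, coe_add', ih]

lemma ext' (f g : Lp ℝ ∞ (Measure.count : Measure α)) (h : ∀ x, f x = g x) : f = g :=
  Lp.ext (Eventually.of_forall h)

lemma meas' (f : Lp ℝ ∞ (Measure.count : Measure α)) : Measurable f :=
  (Lp.stronglyMeasurable f).measurable

end Count

/-! ### The operators -/

/-- integration on the `N`-th part -/
noncomputable def t (N : ℕ) (f : X → ℝ) (p : Y) : ℝ := if p.1 = N then ev p f else 0

lemma t_meas (N : ℕ) (f : X → ℝ) (hf : Measurable f) : Measurable (t N f) := by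
  obtain ⟨c, C, hC, hc⟩ := exists_const f hf
  intro s _
  refine ⟨C, hC, fun p p' h1 h2 => ?_⟩
  have h3 : ev p f = ev p' f := by
    have e1 : f = (fun _ => c) + fun x => f x - c := by ext x; simp
    rw [e1, ev_add, ev_add, ev_const, ev_const]
    rw [ev_local p p' C _ (fun x hx => by simp [hc x hx]) h2]
  simp only [mem_preimage, t, h1, h3]

lemma t_bound (N : ℕ) (f : X → ℝ) (C : ℝ) (hC : 0 ≤ C) (h : ∀ x, |f x| ≤ C) (p : Y) :
    |t N f p| ≤ C := by
  unfold t
  split_ifs
  · exact abs_ev_le p f C h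
  · simpa using hC

/-- the first space of functions -/
abbrev EX : Type := Lp ℝ ∞ (Measure.count : Measure X)

/-- the second space of functions -/
abbrev EY : Type := Lp ℝ ∞ (Measure.count : Measure Y)

/-- the operator on functions -/
noncomputable def T0 (N : ℕ) (f : EX) : EY :=
  (memLp_of (t N f) (t_meas N f (meas' f)) ‖f‖
    (t_bound N f ‖f‖ (norm_nonneg f) (abs_le_norm f))).toLp (t N f)

lemma T0_coe (N : ℕ) (f : EX) (p : Y) : T0 N f p = t N f p := coe_mk _ _ p

/-- the operator -/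
noncomputable def T (N : ℕ) : EX →L[ℝ] EY :=
  LinearMap.mkContinuous
    { toFun := T0 N
      map_add' := fun f g => by
        refine ext' _ _ fun p => ?_
        rw [coe_add', T0_coe, T0_coe, T0_coe]
        have : (f + g : EX) = (⇑f + ⇑g : X → ℝ) := funext fun x => coe_add' f g x
        unfold t
        rw [this, ev_add]
        split_ifs <;> simp
      map_smul' := fun c f => by
        refine ext' _ _ fun p => ?_
        rw [RingHom.id_apply, coe_smul', T0_coe, T0_coe]
        have : ((c • f : EX) : X → ℝ) = c • (⇑f : X → ℝ) := funext fun x => coe_smul' c f x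
        unfold t
        rw [this, ev_smul]
        split_ifs <;> simp }
    1 (fun f => by
      rw [one_mul]
      refine norm_le_of _ _ (norm_nonneg f) fun p => ?_
      change |T0 N f p| ≤ ‖f‖
      rw [T0_coe]
      exact t_bound N f ‖f‖ (norm_nonneg f) (abs_le_norm f) p)

lemma T_coe (N : ℕ) (f : EX) (p : Y) : T N f p = t N f p := T0_coe N f p

lemma T_pos (N : ℕ) : Pos (T N) := by
  intro f hf
  have h1 := all_of_ae ((Lp.coeFn_nonneg f).2 hf)
  refine (Lp.coeFn_nonneg _).1 (Eventually.of_forall fun p => ?_)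
  change 0 ≤ T N f p
  rw [T_coe]
  unfold t
  split_ifs
  · have := ev_mono p (fun _ => 0) f h1
    rwa [ev_const] at this
  · exact le_rfl

lemma T_eps (N : ℕ) : EpsIsometric (2 / ((N : ℝ) + 2)) (T N) := by
  intro f
  have hpos : (0 : ℝ) < (N : ℝ) + 2 := by positivity
  have hn := norm_nonneg f
  constructor
  · -- lower bound
    set s := ‖T N f‖ with hs
    have hs0 : 0 ≤ s := norm_nonneg _
    have h1 : ∀ x, (1 - 1 / ((N : ℝ) + 2)) * |f x| ≤ s + 1 / ((N : ℝ) + 2) * ‖f‖ := by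
      have e1 := eps_pos N
      have e2 := eps_le N
      intro x
      rcases x with a | ⟨a, u⟩
      · have h2 := abs_le_norm (T N f) (N, Sum.inr ⟨{a}, Finset.singleton_nonempty a⟩)
        rw [T_coe] at h2
        simp only [t, if_true, ev_inr, Finset.sum_singleton, Finset.card_singleton] at h2
        simp only [Nat.cast_one, div_one, one_mul] at h2
        have h3 := abs_nonneg (f (Sum.inl a))
        nlinarith
      · have h2 := abs_le_norm (T N f) (N, Sum.inl (a, u))
        rw [T_coe] at h2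
        simp only [t, if_true, ev_inl] at h2
        have h3 := abs_le_norm f (Sum.inl a)
        have h4 : |(1 - 1 / ((N : ℝ) + 2)) * f (Sum.inr (a, u))| ≤
            |(1 - 1 / ((N : ℝ) + 2)) * f (Sum.inr (a, u)) + 1 / ((N : ℝ) + 2) * f (Sum.inl a)| +
              |1 / ((N : ℝ) + 2) * f (Sum.inl a)| := by
          have := abs_sub (( 1 - 1 / ((N : ℝ) + 2)) * f (Sum.inr (a, u)) +
            1 / ((N : ℝ) + 2) * f (Sum.inl a)) (1 / ((N : ℝ) + 2) * f (Sum.inl a))
          simpa using this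
        rw [abs_mul, abs_of_nonneg (by linarith : (0 : ℝ) ≤ 1 - 1 / ((N : ℝ) + 2)),
          abs_mul (1 / ((N : ℝ) + 2)) (f (Sum.inl a)), abs_of_pos e1] at h4
        have h5 := mul_le_mul_of_nonneg_left h3 e1.le
        linarith
    have e1 := eps_pos N
    have e2 := eps_le N
    have e3 : (0 : ℝ) < 1 - 1 / ((N : ℝ) + 2) := by linarith
    have h2 : ‖f‖ ≤ (s + 1 / ((N : ℝ) + 2) * ‖f‖) / (1 - 1 / ((N : ℝ) + 2)) := by
      refine norm_le_of f _ (by positivity) fun x => ?_
      rw [le_div_iff₀ e3, mul_comm]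
      exact h1 x
    rw [le_div_iff₀ e3] at h2
    have e4 : (2 : ℝ) / ((N : ℝ) + 2) = 2 * (1 / ((N : ℝ) + 2)) := by ring
    rw [e4]
    linarith
  · have h1 : ‖T N f‖ ≤ ‖f‖ := by
      refine norm_le_of _ _ (norm_nonneg f) fun p => ?_
      rw [T_coe]
      exact t_bound N f ‖f‖ (norm_nonneg f) (abs_le_norm f) p
    have : 0 ≤ 2 / ((N : ℝ) + 2) * ‖f‖ := by positivity
    linarith

/-! ### No isometry nearby -/

lemma meas_single (x : X) : Measurable (fun y : X => if y = x then (1 : ℝ) else 0) := by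
  refine Measurable.ite ?_ measurable_const measurable_const
  exact Or.inl (by simpa using countable_singleton x)

lemma memLp_single (x : X) :
    MemLp (fun y : X => if y = x then (1 : ℝ) else 0) ∞ (Measure.count : Measure X) :=
  memLp_of _ (meas_single x) 1 fun y => by split_ifs <;> simp

/-- the indicator function of a point -/
noncomputable def e (x : X) : EX := (memLp_single x).toLp _

lemma e_coe (x y : X) : e x y = if y = x then (1 : ℝ) else 0 := coe_mk _ _ y

lemma no_isometry (N : ℕ) (V : EX →L[ℝ] EY) (hV : EpsIsometric 0 V) : ¬ ‖T N - V‖ ≤ 1 / 2 := by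
  classical
  intro hTV
  have hiso : ∀ f, ‖V f‖ = ‖f‖ := by
    intro f
    obtain ⟨h1, h2⟩ := hV f
    apply le_antisymm <;> linarith
  have hdiff : ∀ f p, |T N f p - V f p| ≤ 1 / 2 * ‖f‖ := by
    intro f p
    have h1 := abs_le_norm ((T N - V) f) p
    have h2 : ((T N - V) f) p = T N f p - V f p := coe_sub' (T N f) (V f) p
    rw [h2] at h1
    exact h1.trans ((ContinuousLinearMap.le_opNorm _ f).trans
      (mul_le_mul_of_nonneg_right hTV (norm_nonneg f)))
  have he : ∀ x, ‖e x‖ = 1 := by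
    intro x
    apply le_antisymm
    · refine norm_le_of _ 1 zero_le_one fun y => ?_
      rw [e_coe]; split_ifs <;> simp
    · have := abs_le_norm (e x) x
      rw [e_coe] at this
      simpa using this
  -- the point at which the image of `e (a,t)` has modulus one
  have hone : ∀ a u : Q, |V (e (Sum.inr (a, u))) (N, Sum.inl (a, u))| = 1 := by
    intro a u
    apply le_antisymm
    · have := abs_le_norm (V (e (Sum.inr (a, u)))) (N, Sum.inl (a, u))
      rwa [hiso, he] at this
    · by_contra hcon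
      push Not at hcon
      have h1 : ‖V (e (Sum.inr (a, u)))‖ ≤
          max (1 / 2) |V (e (Sum.inr (a, u))) (N, Sum.inl (a, u))| := by
        refine norm_le_of _ _ (by positivity) fun p => ?_
        by_cases hp : p = (N, Sum.inl (a, u))
        · rw [hp]; exact le_max_right _ _
        · refine le_trans ?_ (le_max_left _ _)
          have h2 := hdiff (e (Sum.inr (a, u))) p
          have h3 : T N (e (Sum.inr (a, u))) p = 0 := by
            rw [T_coe]
            unfold t
            split_ifs with h4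
            · obtain ⟨M, ⟨b, v⟩ | F⟩ := p
              · have h5 : ¬ (b = a ∧ v = u) := by
                  rintro ⟨rfl, rfl⟩
                  exact hp (by rw [← h4])
                rw [ev_inl, e_coe, e_coe]
                simp [h5]
              · rw [ev_inr]
                exact Finset.sum_eq_zero fun b _ => by rw [e_coe]; simp
            · rfl
          rw [h3, zero_sub, abs_neg, he, mul_one] at h2
          exact h2
      rw [hiso, he] at h1
      rcases le_max_iff.1 h1 with h | h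
      · norm_num at h
      · linarith
  -- hence the image of `e a` vanishes there
  have hzero : ∀ a u : Q, V (e (Sum.inl a)) (N, Sum.inl (a, u)) = 0 := by
    intro a u
    have h1 : ∀ s : ℝ, |s| = 1 → |V (e (Sum.inr (a, u))) (N, Sum.inl (a, u)) +
        s * V (e (Sum.inl a)) (N, Sum.inl (a, u))| ≤ 1 := by
      intro s hs
      have h2 : ‖e (Sum.inr (a, u)) + s • e (Sum.inl a)‖ ≤ 1 := by
        refine norm_le_of _ 1 zero_le_one fun y => ?_
        rw [coe_add', coe_smul', e_coe, e_coe]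
        rcases y with b | b <;> simp <;> split_ifs <;> simp [hs]
      rw [← hiso, map_add, map_smul] at h2
      have h3 := abs_le_norm (V (e (Sum.inr (a, u))) + s • V (e (Sum.inl a))) (N, Sum.inl (a, u))
      rw [coe_add', coe_smul'] at h3
      exact h3.trans h2
    have h2 := h1 1 (by simp)
    have h3 := h1 (-1) (by simp)
    have h4 := hone a u
    rw [abs_le] at h2 h3
    rcases (abs_eq zero_le_one).1 h4 with h | h <;> rw [h] at h2 h3 <;> linarith [h2.1, h2.2, h3.1, h3.2]
  -- countable dependence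
  have hdep := fun a : Q => exists_dep (V (e (Sum.inl a))) (meas' _)
  choose C hC1 hC2 using hdep
  obtain ⟨F, hF1, hF2⟩ := exists_free (fun a : Q => {b : Q | (Sum.inl b : X) ∈ C a})
    (fun a => (hC1 a).preimage Sum.inl_injective) Q_card (N + 2)
  have hFne : F.Nonempty := by
    rw [← Finset.card_pos, hF1]; omega
  have hval : ∀ a ∈ F, V (e (Sum.inl a)) (N, Sum.inr ⟨F, hFne⟩) = 0 := by
    intro a ha
    have h1 : {u : Q | (Sum.inr (a, u) : X) ∈ C a}.Countable :=
      (hC1 a).preimage (f := fun u : Q => (Sum.inr (a, u) : X)) (fun u v h => by simpa using h)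
    obtain ⟨u, hu⟩ : ∃ u : Q, (Sum.inr (a, u) : X) ∉ C a := by
      by_contra hcon
      push Not at hcon
      have h2 : (univ : Set Q).Countable := h1.mono fun u _ => hcon u
      rw [← Cardinal.le_aleph0_iff_set_countable, mk_univ] at h2
      exact absurd (h2.trans aleph0_le_continuum) (not_le.2 Q_card)
    rw [← hzero a u]
    refine hC2 a _ _ rfl fun x hx => ?_
    have hcard : ((F.card : ℕ) : ℝ) = (N : ℝ) + 2 := by rw [hF1]; push_cast; rfl
    rcases x with b | b
    · by_cases hb : b = a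
      · subst hb
        simp [w, Finsupp.single_apply, ha, hcard]
      · have hbF : b ∉ F := fun h => hF2 b h a ha hb hx
        simp [w, Finsupp.single_apply, hbF, Ne.symm hb]
    · have hb : (a, u) ≠ b := by
        rintro rfl
        exact hu hx
      simp [w, hb]
  -- conclusion
  have hsum : ‖∑ a ∈ F, e (Sum.inl a)‖ ≤ 1 := by
    refine norm_le_of _ 1 zero_le_one fun y => ?_
    rw [coe_sum']
    simp only [e_coe]
    rcases y with b | b
    · simp only [Sum.inl.injEq]
      rw [Finset.sum_ite_eq]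
      split_ifs <;> simp
    · simp
  have h1 := hdiff (∑ a ∈ F, e (Sum.inl a)) (N, Sum.inr ⟨F, hFne⟩)
  rw [map_sum, map_sum, coe_sum', coe_sum'] at h1
  have h2 : ∑ a ∈ F, V (e (Sum.inl a)) (N, Sum.inr ⟨F, hFne⟩) = 0 := Finset.sum_eq_zero hval
  have h3 : ∑ a ∈ F, T N (e (Sum.inl a)) (N, Sum.inr ⟨F, hFne⟩) = 1 := by
    have h4 : ∀ a ∈ F, T N (e (Sum.inl a)) (N, Sum.inr ⟨F, hFne⟩) = 1 / (F.card : ℝ) := by
      intro a ha
      rw [T_coe]
      simp only [t, if_true, ev_inr, e_coe, Sum.inl.injEq]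
      simp [ha]
    rw [Finset.sum_congr rfl h4, Finset.sum_const, nsmul_eq_mul]
    have : (F.card : ℝ) ≠ 0 := by
      have := hFne.card_pos
      positivity
    field_simp
  rw [h2, h3] at h1
  norm_num at h1
  linarith

lemma exists_N (δ : ℝ → ℝ) (hδ : Tendsto δ (𝓝[>] 0) (𝓝 0)) :
    ∃ N : ℕ, 0 < (2 : ℝ) / ((N : ℝ) + 2) ∧ (2 : ℝ) / ((N : ℝ) + 2) < 1 ∧
      δ (2 / ((N : ℝ) + 2)) ≤ 1 / 2 := by
  have h1 : Tendsto (fun N : ℕ => (2 : ℝ) / ((N : ℝ) + 2)) atTop (𝓝[>] 0) := by
    refine tendsto_nhdsWithin_iff.2 ⟨?_, Eventually.of_forall fun N => ?_⟩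
    · refine Tendsto.div_atTop tendsto_const_nhds ?_
      exact tendsto_atTop_add_const_right _ _ tendsto_natCast_atTop_atTop
    · simp only [mem_Ioi]; positivity
  have h2 := (hδ.comp h1).eventually (ge_mem_nhds (by norm_num : (0 : ℝ) < 1 / 2))
  obtain ⟨N, h3, h4⟩ := (h2.and (eventually_ge_atTop 1)).exists
  refine ⟨N, by positivity, ?_, h3⟩
  rw [div_lt_one (by positivity)]
  have : (1 : ℝ) ≤ N := by exact_mod_cast h4
  linarith

/-- Properties (A) and (B₂) both fail for some pair of `L^∞` spaces. -/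
theorem result : ∃ (Ω₁ Ω₂ : Type) (_ : MeasurableSpace Ω₁) (_ : MeasurableSpace Ω₂)
    (μ₁ : Measure Ω₁) (μ₂ : Measure Ω₂),
    ¬ PropA (Lp ℝ ∞ μ₁) (Lp ℝ ∞ μ₂) ∧ ¬ PropB (Lp ℝ ∞ μ₁) (Lp ℝ ∞ μ₂) := by
  refine ⟨X, Y, instX, instY, Measure.count, Measure.count, ?_, ?_⟩
  · rintro ⟨δ, -, h1, h2⟩
    obtain ⟨N, h3, h4, h5⟩ := exists_N δ h1
    obtain ⟨V, h6, h7⟩ := h2 _ h3 h4 (T N) (T_eps N)
    exact no_isometry N V h6 (h7.trans h5)
  · rintro ⟨δ, -, h1, h2⟩
    obtain ⟨N, h3, h4, h5⟩ := exists_N δ h1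
    obtain ⟨V, -, h6, h7⟩ := h2 _ h3 h4 (T N) (T_pos N) (T_eps N)
    exact no_isometry N V h6 (h7.trans h5)

end Pool.Agent.Results.MP_80693f_an.BothFail
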